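import Pool.Agent.Y6.G.Stm

set_option autoImplicit false

/-! Project EP, job EP-VEC: vector identities. Adaptation of Pool/Agent/Y287/EF/VEC (helper287). -/

open Set Filter Topology
open scoped ComplexConjugate

namespace Pool.Agent.Y704.EP.VEC

open Pool.Agent.Y6.G
open Pool.Agent.Y6.M (qd mq Kz Ker Adm Dat TSol Wt KSol cX cY Uth εc x0 Mains MDat Z3 C3 Coef dt cr
  cj kc nsq len adv leray Kop IsField IsSol energy enstr Md hs br Frame cK sgz)
open Pool.Agent.Y6.F (DSol Mx κr Prt rk code cd ln NM)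

theorem sq_half {x y : ℂ} (hy : y = Complex.I * x) (h : x * conj x + y * conj y = 1) :
    ‖x‖ = 1 / √2 := by
  have h1 : ‖x‖ ^ 2 + ‖y‖ ^ 2 = 1 := by
    rw [Complex.mul_conj, Complex.mul_conj, Complex.normSq_eq_norm_sq,
      Complex.normSq_eq_norm_sq] at h
    exact_mod_cast h
  have h2 : ‖y‖ = ‖x‖ := by rw [hy, norm_mul, Complex.norm_I, one_mul]
  rw [h2] at h1
  have h3 : (√2 * ‖x‖) ^ 2 = 1 := by
    rw [mul_pow, Real.sq_sqrt (by norm_num)]
    linarith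
  have h4 : √2 * ‖x‖ = 1 := by
    have h5 : 0 ≤ √2 * ‖x‖ := by positivity
    nlinarith
  rw [eq_div_iff (by positivity)]
  linarith

/-- the three vectors, in cyclic coordinates -/
theorem core {α β ρ : ℝ} (hα : 0 < α) (hβ : 0 < β) (hρ : 0 < ρ) (hρ2 : ρ ^ 2 = α ^ 2 + β ^ 2)
    {H0 H1 H2 K0 K1 K2 Q0 Q1 Q2 : ℂ} (a0 : (α : ℂ) * H0 = 0)
    (a2 : Complex.I * ((α : ℂ) * H1) = α * H2)
    (ua : H0 * conj H0 + H1 * conj H1 + H2 * conj H2 = 1)
    (b1 : (β : ℂ) * K1 = 0) (b0 : Complex.I * ((β : ℂ) * K2) = β * K0)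
    (ub : K0 * conj K0 + K1 * conj K1 + K2 * conj K2 = 1)
    (q0 : Complex.I * ((β : ℂ) * Q2) = -(ρ : ℂ) * Q0)
    (q1 : Complex.I * (-((α : ℂ) * Q2)) = -(ρ : ℂ) * Q1)
    (uq : Q0 * conj Q0 + Q1 * conj Q1 + Q2 * conj Q2 = 1) :
    ‖conj Q0 * (H1 * K2 - H2 * K1) + conj Q1 * (H2 * K0 - H0 * K2) +
      conj Q2 * (H0 * K1 - H1 * K0)‖ = 1 / (2 * √2) * ((α + β) / ρ - 1) := by
  have hαC : (α : ℂ) ≠ 0 := by exact_mod_cast hα.ne'
  have hβC : (β : ℂ) ≠ 0 := by exact_mod_cast hβ.ne'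
  have hρC : (ρ : ℂ) ≠ 0 := by exact_mod_cast hρ.ne'
  have eH0 : H0 = 0 := (mul_eq_zero.1 a0).resolve_left hαC
  have eK1 : K1 = 0 := (mul_eq_zero.1 b1).resolve_left hβC
  have eH2 : H2 = Complex.I * H1 := by
    apply mul_left_cancel₀ hαC
    rw [← a2]
    ring
  have eK0 : K0 = Complex.I * K2 := by
    apply mul_left_cancel₀ hβC
    rw [← b0]
    ring
  have eQ0 : Q0 = -(Complex.I * ((β / ρ : ℝ) : ℂ) * Q2) := by
    apply mul_left_cancel₀ hρC
    push_cast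
    field_simp
    linear_combination q0
  have eQ1 : Q1 = Complex.I * ((α / ρ : ℝ) : ℂ) * Q2 := by
    apply mul_left_cancel₀ hρC
    push_cast
    field_simp
    linear_combination q1
  have nH : ‖H1‖ = 1 / √2 := by
    refine sq_half eH2 ?_
    rw [eH0, zero_mul, zero_add] at ua
    exact ua
  have nK : ‖K2‖ = 1 / √2 := by
    refine sq_half eK0 ?_
    rw [eK1, zero_mul, add_zero, add_comm] at ub
    exact ub
  have nQ : ‖Q2‖ = 1 / √2 := by
    have h1 : ‖Q0‖ ^ 2 + ‖Q1‖ ^ 2 + ‖Q2‖ ^ 2 = 1 := by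
      rw [Complex.mul_conj, Complex.mul_conj, Complex.mul_conj, Complex.normSq_eq_norm_sq,
        Complex.normSq_eq_norm_sq, Complex.normSq_eq_norm_sq] at uq
      exact_mod_cast uq
    have h2 : ‖Q0‖ = β / ρ * ‖Q2‖ := by
      rw [eQ0, norm_neg, norm_mul, norm_mul, Complex.norm_I, one_mul, Complex.norm_real,
        Real.norm_of_nonneg (by positivity)]
    have h3 : ‖Q1‖ = α / ρ * ‖Q2‖ := by
      rw [eQ1, norm_mul, norm_mul, Complex.norm_I, one_mul, Complex.norm_real,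
        Real.norm_of_nonneg (by positivity)]
    rw [h2, h3] at h1
    have h4 : (β / ρ) ^ 2 + (α / ρ) ^ 2 = 1 := by
      rw [div_pow, div_pow, ← add_div, div_eq_one_iff_eq (by positivity), hρ2]
      ring
    have h5 : (√2 * ‖Q2‖) ^ 2 = 1 := by
      rw [mul_pow, Real.sq_sqrt (by norm_num)]
      linear_combination h1 - ‖Q2‖ ^ 2 * h4
    have h6 : √2 * ‖Q2‖ = 1 := by
      have h5 : 0 ≤ √2 * ‖Q2‖ := by positivity
      nlinarith
    rw [eq_div_iff (by positivity)]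
    linarith
  have hc0 : conj Q0 = Complex.I * ((β / ρ : ℝ) : ℂ) * conj Q2 := by
    rw [eQ0, map_neg, map_mul, map_mul, Complex.conj_I, Complex.conj_ofReal]
    ring
  have hc1 : conj Q1 = -(Complex.I * ((α / ρ : ℝ) : ℂ) * conj Q2) := by
    rw [eQ1, map_mul, map_mul, Complex.conj_I, Complex.conj_ofReal]
    ring
  have e : conj Q0 * (H1 * K2 - H2 * K1) + conj Q1 * (H2 * K0 - H0 * K2) +
      conj Q2 * (H0 * K1 - H1 * K0) =
      Complex.I * (H1 * K2 * conj Q2) * (((α + β) / ρ - 1 : ℝ) : ℂ) := by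
    rw [hc0, hc1, eH0, eK1, eH2, eK0]
    have hI : Complex.I * Complex.I = -1 := Complex.I_mul_I
    push_cast
    field_simp
    linear_combination (-(Complex.I * (α : ℂ) * H1 * K2 * conj Q2)) * hI
  rw [e, norm_mul, norm_mul, norm_mul, norm_mul, Complex.norm_I, one_mul, Complex.norm_conj, nH,
    nK, nQ, Complex.norm_real]
  have h7 : 0 ≤ (α + β) / ρ - 1 := by
    rw [sub_nonneg, le_div_iff₀ hρ, one_mul]
    nlinarith
  rw [Real.norm_of_nonneg h7]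
  have h8 : (1 : ℝ) / √2 * (1 / √2) = 1 / 2 := by
    rw [div_mul_div_comm, one_mul, Real.mul_self_sqrt (by norm_num)]
  rw [h8, div_mul_div_comm, one_mul]

theorem al_posR (n : ℕ) : 0 < αM n := by
  unfold αM
  exact_mod_cast al_pos n

theorem rho_pos (n : ℕ) : 0 < ρM n := by
  unfold ρM
  have := al_posR n
  have := al_posR (n + 1)
  exact Real.sqrt_pos.2 (by positivity)

theorem rho_sq (n : ℕ) : ρM n ^ 2 = αM n ^ 2 + αM (n + 1) ^ 2 := by
  unfold ρM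
  exact Real.sq_sqrt (by positivity)

theorem kx_apply (n : ℕ) (j : Fin 3) : kx n j = if j.1 = n % 3 then (al n : ℤ) else 0 := rfl

theorem nsq_kx (n : ℕ) : nsq (kx n) = (al n : ℤ) ^ 2 := by
  unfold nsq
  rw [Fin.sum_univ_three, kx_apply, kx_apply, kx_apply]
  have h : n % 3 = 0 ∨ n % 3 = 1 ∨ n % 3 = 2 := by omega
  rcases h with h | h | h <;> rw [h] <;> simp

theorem nsq_ky (n : ℕ) : nsq (kx n + kx (n + 1)) = (al n : ℤ) ^ 2 + (al (n + 1) : ℤ) ^ 2 := by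
  unfold nsq
  rw [Fin.sum_univ_three]
  simp only [Pi.add_apply, kx_apply]
  have h : (n % 3 = 0 ∧ (n + 1) % 3 = 1) ∨ (n % 3 = 1 ∧ (n + 1) % 3 = 2) ∨
    (n % 3 = 2 ∧ (n + 1) % 3 = 0) := by omega
  rcases h with ⟨h, h'⟩ | ⟨h, h'⟩ | ⟨h, h'⟩ <;> rw [h, h'] <;> simp [add_comm]

theorem len_kx (n : ℕ) : len (kx n) = αM n := by
  unfold len
  rw [nsq_kx]
  have : (((al n : ℤ) ^ 2 : ℤ) : ℝ) = αM n ^ 2 := by
    unfold αM
    push_cast
    rfl
  rw [this, Real.sqrt_sq (al_posR n).le]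

theorem len_ky (n : ℕ) : len (kx n + kx (n + 1)) = ρM n := by
  unfold len ρM
  rw [nsq_ky]
  congr 1
  unfold αM
  push_cast
  rfl

theorem part1 (h : Md → C3) (fr : Frame h) (n : ℕ) :
    ‖GM h n‖ = 2 * Real.pi * (1 / (2 * √2)) * ((αM n + αM (n + 1)) / ρM n - 1) := by
  have hα := al_posR n
  have hβ := al_posR (n + 1)
  have hρ := rho_pos n
  have hρ2 := rho_sq n
  obtain ⟨α, hαe⟩ : ∃ α, α = αM n := ⟨_, rfl⟩
  obtain ⟨β, hβe⟩ : ∃ β, β = αM (n + 1) := ⟨_, rfl⟩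
  obtain ⟨ρ, hρe⟩ : ∃ ρ, ρ = ρM n := ⟨_, rfl⟩
  -- the three vectors
  have eH := fr.eig (Xm n)
  have eK := fr.eig (Xm (n + 1))
  have eQ := fr.eig (Ym n)
  have uH := fr.unit (Xm n)
  have uK := fr.unit (Xm (n + 1))
  have uQ := fr.unit (Ym n)
  have l1 : hs (Xm n).2 * len (Xm n).1.1 = α := by
    show (1 : ℝ) * len (kx n) = α
    rw [one_mul, len_kx, hαe]
  have l2 : hs (Xm (n + 1)).2 * len (Xm (n + 1)).1.1 = β := by
    show (1 : ℝ) * len (kx (n + 1)) = β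
    rw [one_mul, len_kx, hβe]
  have l3 : hs (Ym n).2 * len (Ym n).1.1 = -ρ := by
    show (-1 : ℝ) * len (kx n + kx (n + 1)) = -ρ
    rw [len_ky, hρe]
    ring
  rw [l1] at eH
  rw [l2] at eK
  rw [l3] at eQ
  obtain ⟨H, hH⟩ : ∃ H, H = h (Xm n) := ⟨_, rfl⟩
  obtain ⟨K, hK⟩ : ∃ K, K = h (Xm (n + 1)) := ⟨_, rfl⟩
  obtain ⟨Q, hQ⟩ : ∃ Q, Q = h (Ym n) := ⟨_, rfl⟩
  have ekH : kc (Xm n).1.1 = fun j : Fin 3 => if j.1 = n % 3 then (α : ℂ) else 0 := by
    funext j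
    show ((kx n j : ℤ) : ℂ) = _
    rw [kx_apply, hαe]
    unfold αM
    split_ifs <;> simp
  have ekK : kc (Xm (n + 1)).1.1 = fun j : Fin 3 => if j.1 = (n + 1) % 3 then (β : ℂ) else 0 := by
    funext j
    show ((kx (n + 1) j : ℤ) : ℂ) = _
    rw [kx_apply, hβe]
    unfold αM
    split_ifs <;> simp
  have ekQ : kc (Ym n).1.1 = fun j : Fin 3 => (if j.1 = n % 3 then (α : ℂ) else 0) +
      if j.1 = (n + 1) % 3 then (β : ℂ) else 0 := by
    funext j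
    show (((kx n + kx (n + 1)) j : ℤ) : ℂ) = _
    rw [Pi.add_apply, kx_apply, kx_apply, hαe, hβe]
    unfold αM
    split_ifs <;> simp
  have hG : GM h n = 2 * Real.pi * (conj (Q 0) * (H 1 * K 2 - H 2 * K 1) +
      conj (Q 1) * (H 2 * K 0 - H 0 * K 2) + conj (Q 2) * (H 0 * K 1 - H 1 * K 0)) := by
    unfold GM dt
    rw [Fin.sum_univ_three, hH, hK, hQ]
    rfl
  have hfin : ‖conj (Q 0) * (H 1 * K 2 - H 2 * K 1) +
      conj (Q 1) * (H 2 * K 0 - H 0 * K 2) + conj (Q 2) * (H 0 * K 1 - H 1 * K 0)‖ =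
      1 / (2 * √2) * ((α + β) / ρ - 1) := by
    rw [← hαe] at hα hρ2
    rw [← hβe] at hβ hρ2
    rw [← hρe] at hρ hρ2
    rw [ekH, ← hH] at eH
    rw [ekK, ← hK] at eK
    rw [ekQ, ← hQ] at eQ
    rw [← hH] at uH
    rw [← hK] at uK
    rw [← hQ] at uQ
    unfold dt cj at uH uK uQ
    rw [Fin.sum_univ_three] at uH uK uQ
    have hcase : (n % 3 = 0 ∧ (n + 1) % 3 = 1) ∨ (n % 3 = 1 ∧ (n + 1) % 3 = 2) ∨
      (n % 3 = 2 ∧ (n + 1) % 3 = 0) := by omega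
    have x0 := eH 0
    have x1 := eH 1
    have x2 := eH 2
    have y0 := eK 0
    have y1 := eK 1
    have y2 := eK 2
    have z0 := eQ 0
    have z1 := eQ 1
    have z2 := eQ 2
    have c0 : ∀ a b : C3, cr a b 0 = a 1 * b 2 - a 2 * b 1 := fun _ _ => rfl
    have c1 : ∀ a b : C3, cr a b 1 = a 2 * b 0 - a 0 * b 2 := fun _ _ => rfl
    have c2 : ∀ a b : C3, cr a b 2 = a 0 * b 1 - a 1 * b 0 := fun _ _ => rfl
    rw [c0] at x0 y0 z0
    rw [c1] at x1 y1 z1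
    rw [c2] at x2 y2 z2
    have f0 : ((0 : Fin 3) : ℕ) = 0 := rfl
    have f1 : ((1 : Fin 3) : ℕ) = 1 := rfl
    have f2 : ((2 : Fin 3) : ℕ) = 2 := rfl
    simp only [f0, f1, f2] at x0 x1 x2 y0 y1 y2 z0 z1 z2
    have e01 : ((0 : ℕ) = 1) = False := by simp
    have e02 : ((0 : ℕ) = 2) = False := by simp
    have e10 : ((1 : ℕ) = 0) = False := by simp
    have e12 : ((1 : ℕ) = 2) = False := by simp
    have e20 : ((2 : ℕ) = 0) = False := by simp
    have e21 : ((2 : ℕ) = 1) = False := by simp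
    rcases hcase with ⟨h1, h2⟩ | ⟨h1, h2⟩ | ⟨h1, h2⟩
    · rw [h1] at x0 x1 x2
      rw [h2] at y0 y1 y2
      rw [h1, h2] at z0 z1 z2
      simp only [if_true, if_false, e01, e02, e10, e12, e20, e21, Complex.ofReal_neg]
        at x0 x1 x2 y0 y1 y2 z0 z1 z2
      exact core hα hβ hρ hρ2 (H0 := H 0) (H1 := H 1) (H2 := H 2) (K0 := K 0) (K1 := K 1)
        (K2 := K 2) (Q0 := Q 0) (Q1 := Q 1) (Q2 := Q 2) (by linear_combination -x0)
        (by linear_combination x2) (by linear_combination uH) (by linear_combination -y1)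
        (by linear_combination y0) (by linear_combination uK) (by linear_combination z0)
        (by linear_combination z1) (by linear_combination uQ)
    · rw [h1] at x0 x1 x2
      rw [h2] at y0 y1 y2
      rw [h1, h2] at z0 z1 z2
      simp only [if_true, if_false, e01, e02, e10, e12, e20, e21, Complex.ofReal_neg]
        at x0 x1 x2 y0 y1 y2 z0 z1 z2
      rw [← core hα hβ hρ hρ2 (H0 := H 1) (H1 := H 2) (H2 := H 0) (K0 := K 1) (K1 := K 2)
        (K2 := K 0) (Q0 := Q 1) (Q1 := Q 2) (Q2 := Q 0) (by linear_combination -x1)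
        (by linear_combination x0) (by linear_combination uH) (by linear_combination -y2)
        (by linear_combination y1) (by linear_combination uK) (by linear_combination z1)
        (by linear_combination z2) (by linear_combination uQ)]
      congr 1
      ring
    · rw [h1] at x0 x1 x2
      rw [h2] at y0 y1 y2
      rw [h1, h2] at z0 z1 z2
      simp only [if_true, if_false, e01, e02, e10, e12, e20, e21, Complex.ofReal_neg]
        at x0 x1 x2 y0 y1 y2 z0 z1 z2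
      rw [← core hα hβ hρ hρ2 (H0 := H 2) (H1 := H 0) (H2 := H 1) (K0 := K 2) (K1 := K 0)
        (K2 := K 1) (Q0 := Q 2) (Q1 := Q 0) (Q2 := Q 1) (by linear_combination -x2)
        (by linear_combination x1) (by linear_combination uH) (by linear_combination -y0)
        (by linear_combination y2) (by linear_combination uK) (by linear_combination z2)
        (by linear_combination z0) (by linear_combination uQ)]
      congr 1
      ring
  rw [hG, norm_mul, hfin, ← hαe, ← hβe, ← hρe]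
  have e2 : ‖(2 * Real.pi : ℂ)‖ = 2 * Real.pi := by
    have : (2 * Real.pi : ℂ) = ((2 * Real.pi : ℝ) : ℂ) := by push_cast; rfl
    rw [this, Complex.norm_real, Real.norm_of_nonneg (by positivity)]
  rw [e2]
  ring


/-! ### Bounds of the kernel -/

/-- square of the length of a vector -/
noncomputable def n2 (u : C3) : ℝ := ‖u 0‖ ^ 2 + ‖u 1‖ ^ 2 + ‖u 2‖ ^ 2

lemma dt3 (u v : C3) : dt u v = u 0 * v 0 + u 1 * v 1 + u 2 * v 2 := by
  unfold dt
  rw [Fin.sum_univ_three]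

lemma n2_nonneg (u : C3) : 0 ≤ n2 u := by
  unfold n2
  positivity

lemma dt_sq (u v : C3) : ‖dt u v‖ ^ 2 ≤ n2 u * n2 v := by
  have h : ‖dt u v‖ ≤ ‖u 0‖ * ‖v 0‖ + ‖u 1‖ * ‖v 1‖ + ‖u 2‖ * ‖v 2‖ := by
    rw [dt3]
    refine (norm_add_le _ _).trans ?_
    rw [norm_mul (u 2)]
    refine add_le_add ((norm_add_le _ _).trans ?_) le_rfl
    rw [norm_mul, norm_mul]
  have h2 : ‖dt u v‖ ^ 2 ≤ (‖u 0‖ * ‖v 0‖ + ‖u 1‖ * ‖v 1‖ + ‖u 2‖ * ‖v 2‖) ^ 2 :=
    pow_le_pow_left₀ (norm_nonneg _) h 2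
  refine h2.trans ?_
  unfold n2
  nlinarith [sq_nonneg (‖u 0‖ * ‖v 1‖ - ‖u 1‖ * ‖v 0‖), sq_nonneg (‖u 0‖ * ‖v 2‖ - ‖u 2‖ * ‖v 0‖),
    sq_nonneg (‖u 1‖ * ‖v 2‖ - ‖u 2‖ * ‖v 1‖)]

lemma dt_le {u v : C3} {p q : ℝ} (hp : 0 ≤ p) (hq : 0 ≤ q) (h1 : n2 u ≤ p ^ 2)
    (h2 : n2 v ≤ q ^ 2) : ‖dt u v‖ ≤ p * q := by
  have h3 : ‖dt u v‖ ^ 2 ≤ (p * q) ^ 2 := by
    rw [mul_pow]
    exact (dt_sq u v).trans (mul_le_mul h1 h2 (n2_nonneg v) (by positivity))
  exact (pow_le_pow_iff_left₀ (norm_nonneg _) (by positivity) two_ne_zero).1 h3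

lemma nsq_c (x : ℂ) : ((‖x‖ ^ 2 : ℝ) : ℂ) = x * conj x := by
  rw [Complex.mul_conj, Complex.normSq_eq_norm_sq]

lemma cr0 (a b : C3) : cr a b 0 = a 1 * b 2 - a 2 * b 1 := rfl
lemma cr1 (a b : C3) : cr a b 1 = a 2 * b 0 - a 0 * b 2 := rfl
lemma cr2 (a b : C3) : cr a b 2 = a 0 * b 1 - a 1 * b 0 := rfl
lemma cj_apply (a : C3) (j : Fin 3) : cj a j = conj (a j) := rfl

lemma lagr (u v : C3) : n2 (cr u v) + ‖dt u (cj v)‖ ^ 2 = n2 u * n2 v := by
  apply Complex.ofReal_injective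
  unfold n2
  rw [dt3, cr0, cr1, cr2, cj_apply, cj_apply, cj_apply]
  simp only [Complex.ofReal_add, Complex.ofReal_mul, nsq_c, map_add, map_sub, map_mul,
    Complex.conj_conj]
  ring

lemma n2_cr (u v : C3) : n2 (cr u v) ≤ n2 u * n2 v := by
  rw [← lagr]
  have : 0 ≤ ‖dt u (cj v)‖ ^ 2 := by positivity
  linarith

lemma n2_cj (u : C3) : n2 (cj u) = n2 u := by
  unfold n2
  rw [cj_apply, cj_apply, cj_apply, Complex.norm_conj, Complex.norm_conj, Complex.norm_conj]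

lemma n2_h {h : Md → C3} (fr : Frame h) (i : Md) : n2 (h i) = 1 := by
  have h1 := fr.unit i
  rw [dt3] at h1
  have h2 : ((n2 (h i) : ℝ) : ℂ) = 1 := by
    unfold n2
    rw [Complex.ofReal_add, Complex.ofReal_add, nsq_c, nsq_c, nsq_c]
    exact h1
  exact_mod_cast h2

lemma ln_nonneg (i : Md) : 0 ≤ ln i := Real.sqrt_nonneg _

lemma n2_kc (i : Md) : n2 (kc i.1.1) = ln i ^ 2 := by
  have h0 : ln i = √(nsq i.1.1 : ℝ) := rfl
  have h1 : (nsq i.1.1 : ℝ) = (i.1.1 0 : ℝ) ^ 2 + (i.1.1 1 : ℝ) ^ 2 + (i.1.1 2 : ℝ) ^ 2 := by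
    unfold nsq
    rw [Fin.sum_univ_three]
    push_cast
    rfl
  have h2 : ∀ j, ‖kc i.1.1 j‖ ^ 2 = (i.1.1 j : ℝ) ^ 2 := by
    intro j
    have : kc i.1.1 j = ((i.1.1 j : ℤ) : ℂ) := rfl
    rw [this, Complex.norm_intCast, sq_abs]
  rw [h0, Real.sq_sqrt (by rw [h1]; positivity), h1]
  unfold n2
  rw [h2, h2, h2]

lemma normK (h : Md → C3) (i a b : Md) (hab : a.1.1 + b.1.1 = i.1.1) :
    ‖cK h i a b‖ = 2 * Real.pi * ‖dt (h a) (kc b.1.1)‖ * ‖dt (h b) (cj (h i))‖ := by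
  unfold cK
  rw [if_pos hab, norm_mul, norm_mul, norm_neg]
  have e2 : ‖(2 * Real.pi * Complex.I : ℂ)‖ = 2 * Real.pi := by
    have : (2 * Real.pi * Complex.I : ℂ) = ((2 * Real.pi : ℝ) : ℂ) * Complex.I := by push_cast; rfl
    rw [this, norm_mul, Complex.norm_I, mul_one, Complex.norm_real,
      Real.norm_of_nonneg (by positivity)]
  rw [e2]

lemma cK_zero (h : Md → C3) (i a b : Md) (hab : ¬ a.1.1 + b.1.1 = i.1.1) : cK h i a b = 0 := by
  unfold cK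
  rw [if_neg hab]

lemma one_bd {h : Md → C3} (fr : Frame h) (a i : Md) : ‖dt (h a) (cj (h i))‖ ≤ 1 := by
  have h1 := dt_le (u := h a) (v := cj (h i)) (p := 1) (q := 1) zero_le_one zero_le_one
    (by rw [n2_h fr, one_pow]) (by rw [n2_cj, n2_h fr, one_pow])
  rwa [mul_one] at h1

lemma k_bd {h : Md → C3} (fr : Frame h) (a b : Md) : ‖dt (h a) (kc b.1.1)‖ ≤ ln b := by
  have h1 := dt_le (u := h a) (v := kc b.1.1) (p := 1) (q := ln b) zero_le_one (ln_nonneg b)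
    (by rw [n2_h fr, one_pow]) (by rw [n2_kc])
  rwa [one_mul] at h1

lemma k_eq {h : Md → C3} (fr : Frame h) (i a b : Md) (hab : a.1.1 + b.1.1 = i.1.1) :
    dt (h a) (kc b.1.1) = dt (h a) (kc i.1.1) := by
  have h1 := fr.perp a
  have h2 : ∀ j, kc i.1.1 j = kc a.1.1 j + kc b.1.1 j := by
    intro j
    have e1 : i.1.1 j = a.1.1 j + b.1.1 j := (congrFun hab j).symm
    have e2 : kc i.1.1 j = ((i.1.1 j : ℤ) : ℂ) := rfl
    have e3 : kc a.1.1 j = ((a.1.1 j : ℤ) : ℂ) := rfl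
    have e4 : kc b.1.1 j = ((b.1.1 j : ℤ) : ℂ) := rfl
    rw [e2, e3, e4, e1]
    push_cast
    rfl
  rw [dt3] at h1 ⊢
  rw [dt3, h2, h2, h2]
  linear_combination -h1

theorem part2 (h : Md → C3) (fr : Frame h) (i a b : Md) :
    ‖cK h i a b‖ ≤ 2 * Real.pi * ln i ∧ ‖cK h i a b‖ ≤ 2 * Real.pi * ln b := by
  have hpi : 0 ≤ 2 * Real.pi := by positivity
  by_cases hab : a.1.1 + b.1.1 = i.1.1
  · rw [normK h i a b hab]
    have h1 := one_bd fr b i
    constructor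
    · rw [k_eq fr i a b hab]
      have h2 := k_bd fr a i
      calc 2 * Real.pi * ‖dt (h a) (kc i.1.1)‖ * ‖dt (h b) (cj (h i))‖
          ≤ 2 * Real.pi * ‖dt (h a) (kc i.1.1)‖ * 1 := by gcongr
        _ ≤ 2 * Real.pi * ln i := by rw [mul_one]; gcongr
    · have h2 := k_bd fr a b
      calc 2 * Real.pi * ‖dt (h a) (kc b.1.1)‖ * ‖dt (h b) (cj (h i))‖
          ≤ 2 * Real.pi * ‖dt (h a) (kc b.1.1)‖ * 1 := by gcongr
        _ ≤ 2 * Real.pi * ln b := by rw [mul_one]; gcongr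
  · rw [cK_zero h i a b hab, norm_zero]
    exact ⟨mul_nonneg hpi (ln_nonneg i), mul_nonneg hpi (ln_nonneg b)⟩

lemma hs_sq (s : Bool) : |hs s| = 1 := by
  unfold hs
  cases s <;> simp

lemma hs_ne {s t : Bool} (h : s ≠ t) : hs s = -hs t := by
  unfold hs
  cases s <;> cases t <;> simp at h ⊢

/-- the identity for the product of two helical vectors -/
lemma ident {h : Md → C3} (fr : Frame h) (i a b : Md) (hab : b.1.1 + a.1.1 = i.1.1) :
    ((hs a.2 * ln a - hs i.2 * ln i : ℝ) : ℂ) * dt (h a) (cj (h i)) =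
      -(Complex.I * dt (cr (kc b.1.1) (h a)) (cj (h i))) := by
  have h2 : ∀ j, kc i.1.1 j = kc b.1.1 j + kc a.1.1 j := by
    intro j
    have e1 : i.1.1 j = b.1.1 j + a.1.1 j := (congrFun hab j).symm
    have e2 : kc i.1.1 j = ((i.1.1 j : ℤ) : ℂ) := rfl
    have e3 : kc a.1.1 j = ((a.1.1 j : ℤ) : ℂ) := rfl
    have e4 : kc b.1.1 j = ((b.1.1 j : ℤ) : ℂ) := rfl
    rw [e2, e3, e4, e1]
    push_cast
    rfl
  have hkc : ∀ j, conj (kc i.1.1 j) = kc i.1.1 j := by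
    intro j
    have e2 : kc i.1.1 j = ((i.1.1 j : ℤ) : ℂ) := rfl
    rw [e2, map_intCast]
  have eA := fr.eig a
  have eI := fr.eig i
  have ela : (hs a.2 * len a.1.1 : ℝ) = hs a.2 * ln a := rfl
  have eli : (hs i.2 * len i.1.1 : ℝ) = hs i.2 * ln i := rfl
  rw [ela] at eA
  rw [eli] at eI
  obtain ⟨A, hA⟩ : ∃ A, A = h a := ⟨_, rfl⟩
  obtain ⟨B, hB⟩ : ∃ B, B = h i := ⟨_, rfl⟩
  rw [← hA] at eA
  rw [← hB] at eI
  rw [← hA, ← hB]
  have a0 := eA 0
  have a1 := eA 1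
  have a2 := eA 2
  have b0 := congrArg conj (eI 0)
  have b1 := congrArg conj (eI 1)
  have b2 := congrArg conj (eI 2)
  rw [cr0] at a0 b0
  rw [cr1] at a1 b1
  rw [cr2] at a2 b2
  simp only [map_mul, map_sub, hkc, Complex.conj_I, Complex.conj_ofReal] at b0 b1 b2
  rw [h2 1, h2 2] at b0
  rw [h2 2, h2 0] at b1
  rw [h2 0, h2 1] at b2
  rw [dt3, dt3, cr0, cr1, cr2, cj_apply, cj_apply, cj_apply, Complex.ofReal_sub]
  linear_combination (-conj (B 0)) * a0 - conj (B 1) * a1 - conj (B 2) * a2 + A 0 * b0 + A 1 * b1 +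
    A 2 * b2

theorem part3 (h : Md → C3) (fr : Frame h) (i a b : Md) (hai : a.2 ≠ i.2)
    (hab : b.1.1 + a.1.1 = i.1.1) :
    ‖cK h i b a‖ * (ln a + ln i) ≤ 2 * Real.pi * ln a * ln b := by
  have h1 := ident fr i a b hab
  have h2 : hs a.2 * ln a - hs i.2 * ln i = hs a.2 * (ln a + ln i) := by
    rw [hs_ne hai]
    ring
  have hla := ln_nonneg a
  have hli := ln_nonneg i
  have hlb := ln_nonneg b
  have h3 : ‖dt (h a) (cj (h i))‖ * (ln a + ln i) ≤ ln b := by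
    have h4 := congrArg norm h1
    rw [norm_mul, h2, norm_neg, norm_mul, Complex.norm_I, one_mul, Complex.norm_real,
      Real.norm_eq_abs, abs_mul, hs_sq, one_mul, abs_of_nonneg (add_nonneg hla hli)] at h4
    rw [mul_comm, h4]
    have h5 := dt_le (u := cr (kc b.1.1) (h a)) (v := cj (h i)) (p := ln b) (q := 1) hlb
      zero_le_one (by
        refine (n2_cr _ _).trans ?_
        rw [n2_kc, n2_h fr, mul_one]) (by rw [n2_cj, n2_h fr, one_pow])
    rwa [mul_one] at h5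
  rw [normK h i b a hab]
  have h6 := k_bd fr b a
  calc 2 * Real.pi * ‖dt (h b) (kc a.1.1)‖ * ‖dt (h a) (cj (h i))‖ * (ln a + ln i)
      = 2 * Real.pi * ‖dt (h b) (kc a.1.1)‖ * (‖dt (h a) (cj (h i))‖ * (ln a + ln i)) := by ring
    _ ≤ 2 * Real.pi * ‖dt (h b) (kc a.1.1)‖ * ln b := by gcongr
    _ ≤ 2 * Real.pi * ln a * ln b := by gcongr

/-- the kernel vanishes for parallel frequencies -/
theorem part4 (h : Md → C3) (fr : Frame h) (i a b : Md) (hc : cK h i a b ≠ 0) :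
    a.1.1 + b.1.1 = i.1.1 ∧ npar a.1.1 b.1.1 := by
  by_cases hab : a.1.1 + b.1.1 = i.1.1
  · refine ⟨hab, ?_⟩
    rintro ⟨e1, e2, e3⟩
    apply hc
    have hp := fr.perp a
    rw [dt3] at hp
    have ka : ∀ j, kc a.1.1 j = ((a.1.1 j : ℤ) : ℂ) := fun _ => rfl
    have kb : ∀ j, kc b.1.1 j = ((b.1.1 j : ℤ) : ℂ) := fun _ => rfl
    rw [ka, ka, ka] at hp
    have f1 : ((a.1.1 0 : ℤ) : ℂ) * ((b.1.1 1 : ℤ) : ℂ) = ((a.1.1 1 : ℤ) : ℂ) * ((b.1.1 0 : ℤ) : ℂ) := by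
      exact_mod_cast e1
    have f2 : ((a.1.1 1 : ℤ) : ℂ) * ((b.1.1 2 : ℤ) : ℂ) = ((a.1.1 2 : ℤ) : ℂ) * ((b.1.1 1 : ℤ) : ℂ) := by
      exact_mod_cast e2
    have f3 : ((a.1.1 2 : ℤ) : ℂ) * ((b.1.1 0 : ℤ) : ℂ) = ((a.1.1 0 : ℤ) : ℂ) * ((b.1.1 2 : ℤ) : ℂ) := by
      exact_mod_cast e3
    have hz : dt (h a) (kc b.1.1) = 0 := by
      rw [dt3, kb, kb, kb]
      by_cases h0 : a.1.1 0 = 0
      · by_cases h1 : a.1.1 1 = 0
        · have h2 : a.1.1 2 ≠ 0 := by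
            intro h2
            apply a.1.2
            funext j
            fin_cases j
            · exact h0
            · exact h1
            · exact h2
          have h2' : ((a.1.1 2 : ℤ) : ℂ) ≠ 0 := by exact_mod_cast h2
          apply mul_left_cancel₀ h2'
          linear_combination ((b.1.1 2 : ℤ) : ℂ) * hp + h a 0 * f3 - h a 1 * f2
        · have h1' : ((a.1.1 1 : ℤ) : ℂ) ≠ 0 := by exact_mod_cast h1
          apply mul_left_cancel₀ h1'
          linear_combination ((b.1.1 1 : ℤ) : ℂ) * hp - h a 0 * f1 + h a 2 * f2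
      · have h0' : ((a.1.1 0 : ℤ) : ℂ) ≠ 0 := by exact_mod_cast h0
        apply mul_left_cancel₀ h0'
        linear_combination ((b.1.1 0 : ℤ) : ℂ) * hp + h a 1 * f1 - h a 2 * f3
    unfold cK
    rw [if_pos hab, hz]
    ring
  · exact absurd (cK_zero h i a b hab) hc

theorem t_VEC : Pool.Agent.Y6.G.S_VEC := by
  intro h fr
  exact ⟨part1 h fr, part2 h fr, part3 h fr, part4 h fr⟩

end Pool.Agent.Y704.EP.VEC
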